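import Pool.Agent.Y549.SP.Fin3
import Pool.Agent.Y549.SP.Fin2
import Pool.Agent.Y549.SP.LS3
import Pool.Agent.Y549.SP.BAD3
import Pool.Agent.Y549.SP.BL
import Pool.Agent.Y549.SP.PJ
import Pool.Agent.Y549.SP.NUM2
import Pool.Agent.Y549.SP.SPL
import Pool.Agent.Y549.SP.TW
import Pool.Agent.Y549.SP.MANY

set_option autoImplicit false

/-!
# Small split primes: almost all small twists of every discriminant

Let `d` be ANY negative fundamental discriminant.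

(1) For every `A ≥ 2`, all but `K X ^ (1 / A + ε)` of the squarefree `m ≤ X` for which `d m` is a
fundamental discriminant are such that half of the primes below the threshold
`(log |d m|) ^ 2 (log log |d m|) ^ 2` of the question split in the field of discriminant `d m`, up to
a relative error `η`; here `X` is any number with `(log |d|) ^ C ≤ X ≤ exp ((log |d|) ^ (2 / A))`
and `C`, `K` do not depend on `d`.  The same for the primes in a set `Q` with at least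
`κ y ^ ρ / log y` elements up to `y`, `ρ > 1 / 2`, with the exponent `1 - ρ + 1 / A + ε`.

(2) There are at least `X ^ (2 / 5)` such `m`, if `X ≥ X₀` and `X ≥ (log |d|) ^ 4`.

(3) Hence every discriminant `d` with `|d| ≥ D` has a multiplier `m ≤ (log |d|) ^ C` such that `d m`
is a fundamental discriminant for which half of the primes below the threshold split.
-/

namespace Pool.Agent.Results.MP_aaa0df_nt.EveryTwist

/-- the fundamental discriminants `d < 0`, that is, the discriminants of the imaginary quadratic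
fields (as in the frozen statement) -/
def NegFund (d : ℤ) : Prop := d < 0 ∧ ((d % 4 = 1 ∧ Squarefree d) ∨
  ∃ m : ℤ, d = 4 * m ∧ (m % 4 = 2 ∨ m % 4 = 3) ∧ Squarefree m)

/-- the primes `p ≤ y` in the set `Q` -/
def primesIn (Q : Set ℕ) (y : ℕ) : Set ℕ := {p | p.Prime ∧ p ≤ y ∧ p ∈ Q}

/-- at least `κ y ^ ρ / log y` primes `p ≤ y` lie in `Q`, for all large `y`, for some `κ > 0` -/
def Thick (Q : Set ℕ) (ρ : ℝ) : Prop := ∃ κ : ℝ, 0 < κ ∧ ∃ y₀ : ℕ, ∀ y : ℕ, y₀ ≤ y →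
  κ * (y : ℝ) ^ ρ ≤ (primesIn Q y).ncard * Real.log y

/-- the threshold `(log |d|) ^ 2 (log log |d|) ^ 2` of the question -/
noncomputable def thr (d : ℤ) : ℝ :=
  Real.log |(d : ℝ)| ^ 2 * Real.log (Real.log |(d : ℝ)|) ^ 2

/-- the number of the primes in `Q` below the threshold which split in the field of discriminant
`d` (`p` does not divide `d` and `d` is a square modulo `4 p`, as in the frozen statement); `N(d)`
of the question if `Q` contains all primes -/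
noncomputable def NQ (Q : Set ℕ) (d : ℤ) : ℕ := Set.ncard {p : ℕ | p.Prime ∧ p ∈ Q ∧
  (p : ℝ) < thr d ∧ ¬ (p : ℤ) ∣ d ∧ ∃ x : ℤ, (4 * (p : ℤ)) ∣ x ^ 2 - d}

/-- the number of the primes in `Q` below the threshold -/
noncomputable def MQ (Q : Set ℕ) (d : ℤ) : ℕ := Set.ncard {p : ℕ | p.Prime ∧ p ∈ Q ∧
  (p : ℝ) < thr d}

open Pool.Agent.Y549.SP in
lemma tw : S_TW := TW.main (BAD3.main BL.main (LS3.main PJ.main) NUM2.main) SPL.main

theorem result :
    Thick Set.univ 1 ∧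
    (∀ (A ρ η ε : ℝ) (Q : Set ℕ), 2 ≤ A → 1 / 2 < ρ → ρ ≤ 1 → 0 < η → 0 < ε → Thick Q ρ →
      ∃ C K : ℝ, 0 < C ∧ 0 < K ∧ ∀ d : ℤ, NegFund d → ∀ X : ℕ,
        Real.log |(d : ℝ)| ^ C ≤ X → (X : ℝ) ≤ Real.exp (Real.log |(d : ℝ)| ^ (2 / A)) →
        ({m : ℕ | m ≤ X ∧ Squarefree m ∧ NegFund (d * m) ∧
          ¬ |2 * (NQ Q (d * m) : ℝ) - MQ Q (d * m)| ≤ η * MQ Q (d * m)}.ncard : ℝ) ≤
            K * (X : ℝ) ^ (1 - ρ + 1 / A + ε)) ∧
    (∃ X₀ : ℕ, ∀ d : ℤ, NegFund d → ∀ X : ℕ, X₀ ≤ X → Real.log |(d : ℝ)| ^ 4 ≤ X →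
      (X : ℝ) ^ (2 / 5 : ℝ) ≤ ({m : ℕ | m ≤ X ∧ Squarefree m ∧ NegFund (d * m)}.ncard : ℝ)) ∧
    (∀ η : ℝ, 0 < η → ∃ C D : ℝ, 0 < C ∧ ∀ d : ℤ, NegFund d → D ≤ |(d : ℝ)| → ∃ m : ℕ,
      1 ≤ m ∧ (m : ℝ) ≤ Real.log |(d : ℝ)| ^ C ∧ Squarefree m ∧ NegFund (d * m) ∧
      |2 * (NQ Set.univ (d * m) : ℝ) - MQ Set.univ (d * m)| ≤ η * MQ Set.univ (d * m)) :=
  ⟨Pool.Agent.Y549.SP.Fin2.thick_univ,
    fun A ρ η ε Q hA hρ hρ1 hη hε hQ =>
      Pool.Agent.Y549.SP.Fin3.part1 tw A ρ η ε Q hA hρ hρ1 hη hε hQ,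
    Pool.Agent.Y549.SP.Fin3.part2 Pool.Agent.Y549.SP.MANY.main,
    fun η hη => Pool.Agent.Y549.SP.Fin3.part3 tw Pool.Agent.Y549.SP.MANY.main
      Pool.Agent.Y549.SP.Fin2.thick_univ η hη⟩

end Pool.Agent.Results.MP_aaa0df_nt.EveryTwist
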