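import Pool.Agent.Y464.SP.Main
import Pool.Agent.H901R3.MS.P_SPKX

set_option autoImplicit false

/-!
# Exceptional discriminants for small split primes

Let `P` be a set of primes with at least `c y^ρ / log y` elements up to `y` (for all large `y`), `0 ≤ η < ρ / 2 ≤ 1 / 2`,
`A ≥ 2 / (ρ - 2 η)`, `A' ≥ A` and `0 < δ ≤ 1`. For all negative fundamental discriminants `d` with `|d| ≤ X`, with at most
`K X^(1 - ρ + 2 η + 1/A + ε)` exceptions, the following holds for ALL `y` between `(log |d|)^A` and `(log |d|)^A'`: among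
the elements of `P` up to `y` the proportion of the primes which split in `ℚ(√d)` differs from `1/2` by at most
`δ y^(-η)`.

For the set of all primes and `A = 2`, `η = 0` this gives `N(d) = (1/2 + o(1)) M(d)` for all but `O(X^(1/2 + ε))` of the
discriminants `|d| ≤ X`, where `M(d)` is the number of primes `p < (log |d|)^2 (log log |d|)^2` and `N(d)` the number of
those which split. If `v ≥ 1` is a sequence with exponent of convergence at most `τ` (e.g. `2^n`, `τ = 0`) and `θ < 1`,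
then there is a set `E` of Hausdorff dimension at most `(1/2 + τ) / (1 - θ)` such that for all `α > 0` outside `E` the
same holds, as `n → ∞`, for ALL `d` with `||d| - α v_n| ≤ v_n^θ`.
-/

namespace Pool.Agent.Results.MP_aaa0df_nt.ExceptionalDiscriminants

open Filter Pool.Agent.Y464.SP

/-- negative fundamental discriminants -/
def NegFund (d : ℤ) : Prop := d < 0 ∧ ((d % 4 = 1 ∧ Squarefree d) ∨
  (∃ m : ℤ, d = 4 * m ∧ (m % 4 = 2 ∨ m % 4 = 3) ∧ Squarefree m))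

/-- the prime `p` splits in `ℚ(√d)` -/
def Splits (d : ℤ) (p : ℕ) : Prop := ¬ ((p : ℤ) ∣ d) ∧ ∃ x : ℤ, (4 * (p : ℤ)) ∣ x ^ 2 - d

/-- the number of elements of `P` up to `y` -/
noncomputable def cnt (P : Set ℕ) (y : ℕ) : ℕ := {p : ℕ | p ∈ P ∧ p ≤ y}.ncard

/-- the number of elements of `P` up to `y` which split in `ℚ(√d)` -/
noncomputable def splitCnt (P : Set ℕ) (d : ℤ) (y : ℕ) : ℕ := {p : ℕ | p ∈ P ∧ p ≤ y ∧ Splits d p}.ncard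

/-- for some `y` between `(log |d|)^A` and `(log |d|)^A'` the proportion of split primes in `P ∩ [1, y]` is not within
`δ y^(-η)` of `1/2` -/
def Exceptional (P : Set ℕ) (A A' δ η : ℝ) (d : ℤ) : Prop := ∃ y : ℕ,
  (Real.log |(d : ℝ)|) ^ A ≤ y ∧ (y : ℝ) ≤ (Real.log |(d : ℝ)|) ^ A' ∧
    δ * (y : ℝ) ^ (-η) * cnt P y < |(splitCnt P d y : ℝ) - cnt P y / 2|

/-- `M(d)`: the number of primes `p < (log |d|)^2 (log log |d|)^2` -/
noncomputable def M (d : ℤ) : ℕ := {p : ℕ | p.Prime ∧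
  (p : ℝ) < Real.log |(d : ℝ)| ^ 2 * Real.log (Real.log |(d : ℝ)|) ^ 2}.ncard

/-- `N(d)`: the number of primes `p < (log |d|)^2 (log log |d|)^2` which split in `ℚ(√d)` -/
noncomputable def N (d : ℤ) : ℕ := {p : ℕ | p.Prime ∧
  (p : ℝ) < Real.log |(d : ℝ)| ^ 2 * Real.log (Real.log |(d : ℝ)|) ^ 2 ∧ Splits d p}.ncard

/-- the exponent of convergence of the sequence `v` is at most `τ` -/
def ExpLe (v : ℕ → ℝ) (τ : ℝ) : Prop := ∀ t : ℝ, τ < t → Summable (fun n : ℕ => (v n) ^ (-t))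

lemma cnt_eq (P : Set ℕ) (y : ℕ) : cnt P y = (upTo P y).card := by
  classical
  rw [cnt, ← Set.ncard_coe_finset]
  congr 1
  ext p
  simp only [Set.mem_ofPred_eq, upTo, Finset.coe_filter, Finset.mem_range]
  constructor
  · rintro ⟨a, b⟩; exact ⟨by omega, a⟩
  · rintro ⟨a, b⟩; exact ⟨b, by omega⟩

lemma splitCnt_eq (P : Set ℕ) (d : ℤ) (y : ℕ) : splitCnt P d y = (spl P d y).card := by
  classical
  rw [splitCnt, ← Set.ncard_coe_finset]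
  congr 1
  ext p
  simp only [Set.mem_ofPred_eq, spl, upTo, Finset.coe_filter, Finset.mem_filter, Finset.mem_range]
  constructor
  · rintro ⟨a, b, c⟩; exact ⟨⟨by omega, a⟩, c⟩
  · rintro ⟨⟨a, b⟩, c⟩; exact ⟨b, by omega, c⟩

lemma exc_iff (P : Set ℕ) (A A' δ η : ℝ) (d : ℤ) :
    d ∈ Exc P A A' δ η ↔ NegFund d ∧ Exceptional P A A' δ η d := by
  unfold Exc Exceptional Bad
  simp only [Set.mem_ofPred_eq, cnt_eq, splitCnt_eq]
  exact Iff.rfl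

/-- the exceptions for `N(d)` -/
def ExcN (δ : ℝ) : Set ℤ := {d : ℤ | NegFund d ∧ δ * M d < |(N d : ℝ) - M d / 2|}

lemma excN_sub (δ : ℝ) : ∃ D₀ : ℕ, ∀ d ∈ ExcN δ, (D₀ : ℝ) ≤ |(d : ℝ)| → d ∈ Exc {p | p.Prime} 2 4 δ 0 := by
  refine ⟨⌈Real.exp (Real.exp 2)⌉₊, ?_⟩
  rintro d ⟨hd, hb⟩ hD
  have h1 : Real.exp (Real.exp 2) ≤ |(d : ℝ)| := (Nat.le_ceil _).trans hD
  have hd0 : 0 < |(d : ℝ)| := lt_of_lt_of_le (Real.exp_pos _) h1
  obtain ⟨l, hl⟩ : ∃ l, l = Real.log |(d : ℝ)| := ⟨_, rfl⟩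
  have hl1 : Real.exp 2 ≤ l := by rw [hl, Real.le_log_iff_exp_le hd0]; exact h1
  have hl0 : 0 < l := lt_of_lt_of_le (Real.exp_pos _) hl1
  have hl2 : 2 ≤ Real.log l := by rw [Real.le_log_iff_exp_le hl0]; exact hl1
  have hl4 : 4 ≤ l := by
    have h2 : (2 : ℝ) + 1 ≤ Real.exp 2 := Real.add_one_le_exp 2
    have h3 : Real.exp 2 = Real.exp 1 * Real.exp 1 := by rw [← Real.exp_add]; norm_num
    have h4 : 2 < Real.exp 1 := by linarith [Real.exp_one_gt_d9]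
    nlinarith
  obtain ⟨Y, hY⟩ : ∃ Y : ℝ, Y = l ^ 2 * Real.log l ^ 2 := ⟨_, rfl⟩
  have hY1 : l ^ 2 + 1 ≤ Y := by
    rw [hY]
    have : (4 : ℝ) ≤ Real.log l ^ 2 := by nlinarith
    nlinarith
  have hY2 : Y ≤ l ^ 4 := by
    have h5 : Real.log l ≤ l ^ (1 / 2 : ℝ) / (1 / 2) := Real.log_le_rpow_div hl0.le (by norm_num)
    have h6 : Real.log l ^ 2 ≤ 4 * l := by
      have h7 : (l ^ (1 / 2 : ℝ)) ^ 2 = l := by
        rw [← Real.rpow_natCast, ← Real.rpow_mul hl0.le]; norm_num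
      have h8 : Real.log l ^ 2 ≤ (l ^ (1 / 2 : ℝ) / (1 / 2)) ^ 2 := pow_le_pow_left₀ (by linarith) h5 2
      rw [div_pow, h7] at h8
      norm_num at h8
      linarith
    rw [hY]
    calc l ^ 2 * Real.log l ^ 2 ≤ l ^ 2 * (4 * l) := mul_le_mul_of_nonneg_left h6 (by positivity)
      _ ≤ l ^ 2 * (l * l) := by gcongr
      _ = l ^ 4 := by ring
  have hYpos : 0 < Y := by nlinarith
  have hceil : 1 ≤ ⌈Y⌉₊ := Nat.one_le_ceil_iff.2 hYpos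
  obtain ⟨y, hy⟩ : ∃ y : ℕ, ⌈Y⌉₊ = y + 1 := ⟨⌈Y⌉₊ - 1, by omega⟩
  have hlt : ∀ p : ℕ, (p : ℝ) < Y ↔ p ≤ y := by
    intro p
    rw [← Nat.lt_ceil, hy]
    omega
  have hM : M d = cnt {p | p.Prime} y := by
    unfold M cnt
    congr 1
    ext p
    simp only [Set.mem_ofPred_eq]
    rw [← hl, ← hY, hlt]
  have hN : N d = splitCnt {p | p.Prime} d y := by
    unfold N splitCnt
    congr 1
    ext p
    simp only [Set.mem_ofPred_eq]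
    rw [← hl, ← hY, hlt]
  rw [exc_iff]
  refine ⟨hd, y, ?_, ?_, ?_⟩
  · rw [← hl]
    have h5 : Y ≤ ((y + 1 : ℕ) : ℝ) := by rw [← hy]; exact Nat.le_ceil _
    push_cast at h5
    rw [Real.rpow_two]
    linarith
  · rw [← hl]
    have h5 : (⌈Y⌉₊ : ℝ) < Y + 1 := Nat.ceil_lt_add_one hYpos.le
    rw [hy] at h5
    push_cast at h5
    have h6 : l ^ (4 : ℝ) = l ^ 4 := by exact_mod_cast Real.rpow_natCast l 4
    rw [h6]
    linarith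
  · rw [← hM, ← hN, neg_zero, Real.rpow_zero, mul_one]
    exact hb

lemma primes_low : ∀ y : ℕ, 30 ≤ y → (1 / 2 : ℝ) * (y : ℝ) ^ (1 : ℝ) / Real.log y ≤ (upTo {p | p.Prime} y).card := by
  intro y hy
  have h1 := Pool.Agent.H901R3.MS.W_SPKX.cheb y hy
  rw [Real.rpow_one]
  have h2 : (upTo {p : ℕ | p.Prime} y).card = Nat.primeCounting y := by
    classical
    rw [Nat.primeCounting, Nat.primeCounting', Nat.count_eq_card_filter_range, upTo]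
    congr 1
    ext p
    simp only [Finset.mem_filter, Set.mem_ofPred_eq]
  rw [h2]
  refine le_trans (le_of_eq ?_) h1
  ring

lemma countN (δ : ℝ) (hδ : 0 < δ) (hδ1 : δ ≤ 1) (ε : ℝ) (hε : 0 < ε) : ∃ K : ℝ, ∀ X : ℝ, 1 ≤ X →
    {d : ℤ | d ∈ ExcN δ ∧ |(d : ℝ)| ≤ X}.Finite ∧
      ({d : ℤ | d ∈ ExcN δ ∧ |(d : ℝ)| ≤ X}.ncard : ℝ) ≤ K * X ^ (1 / 2 + ε) := by
  obtain ⟨D₀, hD₀⟩ := excN_sub δ
  obtain ⟨K, hK⟩ := count {p : ℕ | p.Prime} (fun p hp => hp) 1 (1 / 2) 2 4 δ 0 30 le_rfl (by norm_num) le_rfl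
    (by norm_num) (by norm_num) (by norm_num) hδ hδ1 primes_low ε hε
  refine ⟨K + (2 * D₀ + 1), fun X hX => ?_⟩
  obtain ⟨h1, h2⟩ := hK X hX
  have hsub : {d : ℤ | d ∈ ExcN δ ∧ |(d : ℝ)| ≤ X} ⊆
      {d : ℤ | d ∈ Exc {p | p.Prime} 2 4 δ 0 ∧ |(d : ℝ)| ≤ X} ∪ Set.Icc (-(D₀ : ℤ)) D₀ := by
    rintro d ⟨hd, hdX⟩
    rcases le_or_gt (D₀ : ℝ) |(d : ℝ)| with h | h
    · exact Or.inl ⟨hD₀ d hd h, hdX⟩
    · right
      have h3 : |d| < (D₀ : ℤ) := by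
        rw [← Int.cast_abs] at h
        exact_mod_cast h
      rw [abs_lt] at h3
      exact ⟨h3.1.le, h3.2.le⟩
  have hfin := h1.union (Set.finite_Icc (-(D₀ : ℤ)) D₀)
  refine ⟨hfin.subset hsub, ?_⟩
  have h3 := (Set.ncard_le_ncard hsub hfin).trans (Set.ncard_union_le _ _)
  have h4 : (Set.Icc (-(D₀ : ℤ)) D₀).ncard = 2 * D₀ + 1 := by
    rw [← Finset.coe_Icc, Set.ncard_coe_finset, Int.card_Icc]
    omega
  rw [h4] at h3
  have h5 : ({d : ℤ | d ∈ ExcN δ ∧ |(d : ℝ)| ≤ X}.ncard : ℝ) ≤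
      ({d : ℤ | d ∈ Exc {p | p.Prime} 2 4 δ 0 ∧ |(d : ℝ)| ≤ X}.ncard : ℝ) + (2 * D₀ + 1) := by
    exact_mod_cast h3
  have h6 : (1 - 1 + 2 * 0 + 1 / 2 + ε : ℝ) = 1 / 2 + ε := by ring
  rw [h6] at h2
  have h7 : 1 ≤ X ^ (1 / 2 + ε) := Real.one_le_rpow hX (by positivity)
  have h8 : (2 * (D₀ : ℝ) + 1) ≤ (2 * D₀ + 1) * X ^ (1 / 2 + ε) := le_mul_of_one_le_right (by positivity) h7
  rw [add_mul]
  linarith

/-- **Theorem.** -/
theorem result :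
    -- arbitrary sets of primes: the number of exceptions, and windows
    (∀ (P : Set ℕ) (ρ c A A' δ η : ℝ), (∀ p ∈ P, p.Prime) → ρ ≤ 1 → 0 < c → 0 ≤ η → 0 < ρ - 2 * η →
      2 ≤ (ρ - 2 * η) * A → A ≤ A' → 0 < δ → δ ≤ 1 →
      (∀ᶠ y : ℕ in atTop, c * (y : ℝ) ^ ρ / Real.log y ≤ cnt P y) →
      (∀ ε : ℝ, 0 < ε → ∃ K : ℝ, ∀ X : ℝ, 1 ≤ X →
        {d : ℤ | NegFund d ∧ |(d : ℝ)| ≤ X ∧ Exceptional P A A' δ η d}.Finite ∧
        ({d : ℤ | NegFund d ∧ |(d : ℝ)| ≤ X ∧ Exceptional P A A' δ η d}.ncard : ℝ) ≤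
          K * X ^ (1 - ρ + 2 * η + 1 / A + ε)) ∧
      (∀ (v : ℕ → ℝ) (τ θ : ℝ), (∀ n, 1 ≤ v n) → 0 ≤ τ → ExpLe v τ → θ < 1 →
        ∃ E : Set ℝ, dimH E ≤ ENNReal.ofReal ((1 - ρ + 2 * η + 1 / A + τ) / (1 - θ)) ∧ ∀ α : ℝ, 0 < α → α ∉ E →
          ∃ n₀ : ℕ, ∀ n : ℕ, n₀ ≤ n → ∀ d : ℤ, NegFund d → |(|d| : ℝ) - α * v n| ≤ (v n) ^ θ →
            ¬ Exceptional P A A' δ η d)) ∧
    (∀ᶠ y : ℕ in atTop, (1 / 2 : ℝ) * (y : ℝ) ^ (1 : ℝ) / Real.log y ≤ cnt {p | p.Prime} y) ∧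
    -- `N(d)`: the number of exceptions, and windows
    (∀ δ ε : ℝ, 0 < δ → 0 < ε → ∃ K : ℝ, ∀ X : ℝ, 1 ≤ X →
      {d : ℤ | NegFund d ∧ |(d : ℝ)| ≤ X ∧ δ * M d < |(N d : ℝ) - M d / 2|}.Finite ∧
      ({d : ℤ | NegFund d ∧ |(d : ℝ)| ≤ X ∧ δ * M d < |(N d : ℝ) - M d / 2|}.ncard : ℝ) ≤
        K * X ^ (1 / 2 + ε)) ∧
    (∀ (v : ℕ → ℝ) (τ θ : ℝ), (∀ n, 1 ≤ v n) → 0 ≤ τ → ExpLe v τ → θ < 1 →
      ∃ E : Set ℝ, dimH E ≤ ENNReal.ofReal ((1 / 2 + τ) / (1 - θ)) ∧ ∀ α : ℝ, 0 < α → α ∉ E → ∀ δ : ℝ, 0 < δ →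
        ∃ n₀ : ℕ, ∀ n : ℕ, n₀ ≤ n → ∀ d : ℤ, NegFund d → |(|d| : ℝ) - α * v n| ≤ (v n) ^ θ →
          |(N d : ℝ) - M d / 2| ≤ δ * M d) ∧
    (∀ κ : ℝ, 0 < κ → ExpLe (fun n : ℕ => ((n : ℝ) + 1) ^ κ) (1 / κ)) ∧
    (∀ b : ℝ, 1 < b → ExpLe (fun n : ℕ => b ^ n) 0) := by
  refine ⟨?_, ?_, ?_, ?_, fun κ hκ => Pool.Agent.Y854.GM.expLe_pow κ hκ,
    fun b hb => Pool.Agent.Y854.GM.expLe_geom b hb⟩
  · intro P ρ c A A' δ η hP hρ1 hc hη hρ hA hAA hδ hδ1 hlow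
    obtain ⟨y0, hy0⟩ := eventually_atTop.1 hlow
    have hlow' : ∀ y : ℕ, y0 ≤ y → c * (y : ℝ) ^ ρ / Real.log y ≤ (upTo P y).card := by
      intro y hy
      have := hy0 y hy
      rwa [cnt_eq] at this
    have hset : ∀ X : ℝ, {d : ℤ | NegFund d ∧ |(d : ℝ)| ≤ X ∧ Exceptional P A A' δ η d} =
        {d : ℤ | d ∈ Exc P A A' δ η ∧ |(d : ℝ)| ≤ X} := by
      intro X
      ext d
      simp only [Set.mem_ofPred_eq]
      rw [exc_iff]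
      tauto
    have hcount := count P hP ρ c A A' δ η y0 hρ1 hc hη hρ hA hAA hδ hδ1 hlow'
    refine ⟨fun ε hε => ?_, fun v τ θ hv hτ hE hθ1 => ?_⟩
    · obtain ⟨K, hK⟩ := hcount ε hε
      refine ⟨K, fun X hX => ?_⟩
      rw [hset]
      exact hK X hX
    · have hA0 : 0 < A := by nlinarith
      obtain ⟨E, hE1, hE2⟩ := Pool.Agent.Y854.GM.windows (Exc P A A' δ η) (fun d : ℤ => |(d : ℝ)|) hv hτ hE
        (s := 1 - ρ + 2 * η + 1 / A) (by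
          have : 0 < 1 / A := by positivity
          linarith) hθ1 hcount
      refine ⟨E, hE1, fun α hα hαE => ?_⟩
      obtain ⟨n₀, hn⟩ := hE2 α hα hαE
      refine ⟨n₀, fun n hn1 d hd hw hex => ?_⟩
      exact absurd (hn n hn1 d ((exc_iff _ _ _ _ _ _).2 ⟨hd, hex⟩)) (not_lt.2 hw)
  · filter_upwards [eventually_ge_atTop 30] with y hy
    rw [cnt_eq]
    exact primes_low y hy
  · intro δ ε hδ hε
    obtain ⟨K, hK⟩ := countN (min δ 1) (lt_min hδ one_pos) (min_le_right _ _) ε hε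
    refine ⟨K, fun X hX => ?_⟩
    obtain ⟨h1, h2⟩ := hK X hX
    have hsub : {d : ℤ | NegFund d ∧ |(d : ℝ)| ≤ X ∧ δ * M d < |(N d : ℝ) - M d / 2|} ⊆
        {d : ℤ | d ∈ ExcN (min δ 1) ∧ |(d : ℝ)| ≤ X} := by
      rintro d ⟨a1, a2, a3⟩
      refine ⟨⟨a1, lt_of_le_of_lt ?_ a3⟩, a2⟩
      exact mul_le_mul_of_nonneg_right (min_le_left _ _) (Nat.cast_nonneg _)
    refine ⟨h1.subset hsub, le_trans ?_ h2⟩
    exact_mod_cast Set.ncard_le_ncard hsub h1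
  · intro v τ θ hv hτ hE hθ1
    have key : ∀ k : ℕ, ∃ E : Set ℝ, dimH E ≤ ENNReal.ofReal ((1 / 2 + τ) / (1 - θ)) ∧ ∀ α : ℝ, 0 < α → α ∉ E →
        ∃ n₀ : ℕ, ∀ n : ℕ, n₀ ≤ n → ∀ d ∈ ExcN (1 / ((k : ℝ) + 1)), (v n) ^ θ < |(|(d : ℝ)|) - α * v n| := by
      intro k
      exact Pool.Agent.Y854.GM.windows (ExcN (1 / ((k : ℝ) + 1))) (fun d : ℤ => |(d : ℝ)|) hv hτ hE
        (s := 1 / 2) (by norm_num) hθ1 (fun η hη => countN _ (by positivity) (by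
          rw [div_le_one (by positivity)]
          have : (0 : ℝ) ≤ k := Nat.cast_nonneg k
          linarith) η hη)
    choose G hG1 hG2 using key
    refine ⟨⋃ k, G k, ?_, fun α hα hαE δ hδ => ?_⟩
    · rw [dimH_iUnion]
      exact iSup_le hG1
    · rw [Set.mem_iUnion] at hαE
      push Not at hαE
      obtain ⟨k, hk⟩ := exists_nat_one_div_lt hδ
      obtain ⟨n₀, hn⟩ := hG2 k α hα (hαE k)
      refine ⟨n₀, fun n hn1 d hd hw => ?_⟩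
      by_contra hcon
      push Not at hcon
      have h1 : d ∈ ExcN (1 / ((k : ℝ) + 1)) := by
        refine ⟨hd, lt_of_le_of_lt ?_ hcon⟩
        exact mul_le_mul_of_nonneg_right hk.le (Nat.cast_nonneg _)
      exact absurd (hn n hn1 d h1) (not_lt.2 hw)

end Pool.Agent.Results.MP_aaa0df_nt.ExceptionalDiscriminants
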