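import Pool.Agent.Y549.SP.Fin2
import Pool.Agent.Y549.SP.LS2
import Pool.Agent.Y549.SP.BAD2
import Pool.Agent.Y549.SP.BL
import Pool.Agent.Y549.SP.PJ
import Pool.Agent.Y549.SP.NUM2
import Pool.Agent.Y549.SP.SPL
import Pool.Agent.Y549.SP.CNT2

set_option autoImplicit false

/-!
# Small split primes in sparse sets of primes

Let `Q` be a set of primes with at least `κ y ^ ρ / log y` elements up to `y`, `0 < ρ ≤ 1`, and let
`A > 1 / ρ`.

(1) All but `K X ^ (1 - ρ + 1 / A + ε)` negative fundamental discriminants `d`, `|d| ≤ X`, are such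
that half of the primes `p ≤ y` in `Q` split in `ℚ(√d)`, up to a relative error `η`, for all `y`
between `(log |d|) ^ A` and `|d| ^ c`.

(2) Let `v n ≥ 1` be a sequence of exponent of convergence `τ`, `θ < 1`.  For all `α > 0` outside a
set of Hausdorff dimension at most `(1 - ρ + 1 / A + τ) / (1 - θ)` every discriminant `d` with
`||d| - α v n| ≤ (v n) ^ θ` and `n` large has this property, for countably many sets `Q i` and all
`η` simultaneously.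

(3), (4) The case of the threshold `(log |d|) ^ 2 (log log |d|) ^ 2` of the question: if `ρ > 1 / 2`
then half of the primes in `Q` below the threshold split, for all but `K X ^ (3 / 2 - ρ + ε)`
discriminants and for every discriminant in the windows, for all `α > 0` outside a set of dimension
at most `(3 / 2 - ρ + τ) / (1 - θ)`.

Proof: if the sum of the symbols over the primes of `Q` up to `y` is large then it is large over
many of the blocks of a fixed partition of these primes; the product of the sums over `r` blocks,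
`y ^ r ≤ X < y ^ (r + 1)`, is a sum over squarefree numbers up to `X`, and Heath-Brown's large sieve
for real characters can be applied.
-/

namespace Pool.Agent.Results.MP_aaa0df_nt.SparseSetsOfPrimes

/-- the fundamental discriminants `d < 0`, that is, the discriminants of the imaginary quadratic
fields (as in the frozen statement) -/
def NegFund (d : ℤ) : Prop := d < 0 ∧ ((d % 4 = 1 ∧ Squarefree d) ∨
  ∃ m : ℤ, d = 4 * m ∧ (m % 4 = 2 ∨ m % 4 = 3) ∧ Squarefree m)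

/-- the primes `p ≤ y` in the set `Q` -/
def primesIn (Q : Set ℕ) (y : ℕ) : Set ℕ := {p | p.Prime ∧ p ≤ y ∧ p ∈ Q}

/-- the primes `p ≤ y` in the set `Q` which split in the quadratic field of discriminant `d`: `p`
does not divide `d` and `d` is a square modulo `4 p` (as in the frozen statement) -/
def splitIn (Q : Set ℕ) (d : ℤ) (y : ℕ) : Set ℕ :=
  {p | p.Prime ∧ p ≤ y ∧ p ∈ Q ∧ ¬ (p : ℤ) ∣ d ∧ ∃ x : ℤ, (4 * (p : ℤ)) ∣ x ^ 2 - d}

/-- at least `κ y ^ ρ / log y` primes `p ≤ y` lie in `Q`, for all large `y`, for some `κ > 0` -/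
def Thick (Q : Set ℕ) (ρ : ℝ) : Prop := ∃ κ : ℝ, 0 < κ ∧ ∃ y₀ : ℕ, ∀ y : ℕ, y₀ ≤ y →
  κ * (y : ℝ) ^ ρ ≤ (primesIn Q y).ncard * Real.log y

/-- For all `y` between `(log |d|) ^ A` and `|d| ^ c` half of the primes `p ≤ y` in `Q` split in
the field of discriminant `d`, up to the relative error `η`. -/
def Half (Q : Set ℕ) (A c η : ℝ) (d : ℤ) : Prop := ∀ y : ℕ, Real.log |(d : ℝ)| ^ A ≤ y →
  (y : ℝ) ≤ |(d : ℝ)| ^ c →
    |2 * ((splitIn Q d y).ncard : ℝ) - (primesIn Q y).ncard| ≤ η * (primesIn Q y).ncard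

/-- the threshold `(log |d|) ^ 2 (log log |d|) ^ 2` of the question -/
noncomputable def thr (d : ℤ) : ℝ :=
  Real.log |(d : ℝ)| ^ 2 * Real.log (Real.log |(d : ℝ)|) ^ 2

/-- the number of the primes in `Q` below the threshold which split; `N(d)` if `Q` contains all
primes -/
noncomputable def NQ (Q : Set ℕ) (d : ℤ) : ℕ := Set.ncard {p : ℕ | p.Prime ∧ p ∈ Q ∧
  (p : ℝ) < thr d ∧ ¬ (p : ℤ) ∣ d ∧ ∃ x : ℤ, (4 * (p : ℤ)) ∣ x ^ 2 - d}

/-- the number of the primes in `Q` below the threshold -/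
noncomputable def MQ (Q : Set ℕ) (d : ℤ) : ℕ := Set.ncard {p : ℕ | p.Prime ∧ p ∈ Q ∧
  (p : ℝ) < thr d}

/-- the exponent of convergence of the sequence `v` is at most `τ` -/
def ExponentLe (v : ℕ → ℝ) (τ : ℝ) : Prop := ∀ t : ℝ, τ < t → Summable (fun n => v n ^ (-t))

open Pool.Agent.Y549.SP in
lemma cnt : S_CNT2 := CNT2.main (BAD2.main BL.main (LS2.main PJ.main) NUM2.main) SPL.main

theorem result :
    Thick Set.univ 1 ∧
    (∀ (A ρ η ε : ℝ) (Q : Set ℕ), 0 < ρ → ρ ≤ 1 → 1 < A * ρ → 0 < η → 0 < ε → Thick Q ρ →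
      ∃ c K : ℝ, 0 < c ∧ 0 < K ∧ ∀ X : ℕ, 1 ≤ X →
        ({d : ℤ | NegFund d ∧ |d| ≤ X ∧ ¬ Half Q A c η d}.ncard : ℝ) ≤
          K * (X : ℝ) ^ (1 - ρ + 1 / A + ε)) ∧
    (∀ (A ρ τ θ : ℝ) (Q : ℕ → Set ℕ) (v : ℕ → ℝ), 0 < ρ → ρ ≤ 1 → 1 < A * ρ → 0 ≤ τ → θ < 1 →
      (∀ i, Thick (Q i) ρ) → (∀ n, 1 ≤ v n) → ExponentLe v τ →
      ∃ E : Set ℝ, dimH E ≤ ENNReal.ofReal ((1 - ρ + 1 / A + τ) / (1 - θ)) ∧
        ∀ α : ℝ, 0 < α → α ∉ E → ∀ (i : ℕ) (η : ℝ), 0 < η → ∃ c : ℝ, 0 < c ∧ ∃ n₀ : ℕ,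
          ∀ n : ℕ, n₀ ≤ n → ∀ d : ℤ, NegFund d → |(|(d : ℝ)|) - α * v n| ≤ v n ^ θ →
            Half (Q i) A c η d) ∧
    (∀ (ρ η ε : ℝ) (Q : Set ℕ), 1 / 2 < ρ → ρ ≤ 1 → 0 < η → 0 < ε → Thick Q ρ →
      ∃ K : ℝ, ∀ X : ℕ, 1 ≤ X →
        ({d : ℤ | NegFund d ∧ |d| ≤ X ∧
          ¬ |2 * (NQ Q d : ℝ) - MQ Q d| ≤ η * MQ Q d}.ncard : ℝ) ≤
            K * (X : ℝ) ^ (3 / 2 - ρ + ε)) ∧
    (∀ (ρ τ θ : ℝ) (Q : ℕ → Set ℕ) (v : ℕ → ℝ), 1 / 2 < ρ → ρ ≤ 1 → 0 ≤ τ → θ < 1 →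
      (∀ i, Thick (Q i) ρ) → (∀ n, 1 ≤ v n) → ExponentLe v τ →
      ∃ E : Set ℝ, dimH E ≤ ENNReal.ofReal ((3 / 2 - ρ + τ) / (1 - θ)) ∧
        ∀ α : ℝ, 0 < α → α ∉ E → ∀ (i : ℕ) (η : ℝ), 0 < η → ∃ n₀ : ℕ, ∀ n : ℕ, n₀ ≤ n →
          ∀ d : ℤ, NegFund d → |(|(d : ℝ)|) - α * v n| ≤ v n ^ θ →
            |2 * (NQ (Q i) d : ℝ) - MQ (Q i) d| ≤ η * MQ (Q i) d) :=
  ⟨Pool.Agent.Y549.SP.Fin2.thick_univ,
    fun A ρ η ε Q hρ hρ1 hA hη hε hQ =>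
      Pool.Agent.Y549.SP.Fin2.part1 cnt A ρ η ε Q hρ hρ1 hA hη hε hQ,
    fun A ρ τ θ Q v hρ hρ1 hA hτ hθ hQ hv1 hv =>
      Pool.Agent.Y549.SP.Fin2.part2 cnt A ρ τ θ Q v hρ hρ1 hA hτ hθ hQ hv1 hv,
    fun ρ η ε Q hρ hρ1 hη hε hQ => Pool.Agent.Y549.SP.Fin2.part3 cnt ρ η ε Q hρ hρ1 hη hε hQ,
    fun ρ τ θ Q v hρ hρ1 hτ hθ hQ hv1 hv =>
      Pool.Agent.Y549.SP.Fin2.part4 cnt ρ τ θ Q v hρ hρ1 hτ hθ hQ hv1 hv⟩

end Pool.Agent.Results.MP_aaa0df_nt.SparseSetsOfPrimes
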